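import Pool.Agent.W811.LW.Stm

/-! Project LW: few digits destroy bad approximability. -/

set_option autoImplicit false

namespace Pool.Agent.W856.LW

open Pool.Agent.W811.LW

theorem bak : BAK := by
  classical
  intro D n β hD hBA
  have hDr : (8 : ℝ) ≤ D := by exact_mod_cast hD
  have hD0 : (0 : ℝ) < D := by linarith
  set E : ℝ := (D : ℝ) ^ n with hE
  have hE0 : 0 < E := by positivity
  have hpow2 : (D : ℝ) ^ (2 * n + 2) = E ^ 2 * (D : ℝ) ^ 2 := by
    rw [hE, ← pow_mul, ← pow_add]
    congr 1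
    ring
  have hpow1 : (D : ℝ) ^ (n + 1) = E * D := by rw [pow_succ]
  let Fl : ℕ → ℤ → ℤ → Prop := fun d q p =>
    0 < q ∧ (q : ℝ) < E / 2 ∧
      |(q : ℝ) * (β + (d : ℝ) / (E ^ 2 * (D : ℝ) ^ 2)) - p| < 1 / (2 * E * (D : ℝ) ^ 2)
  -- no failure gives `BA`
  have hBA' : ∀ d : ℕ, (∀ q p : ℤ, ¬ Fl d q p) →
      BA D (n + 1) (β + (d : ℝ) / (D : ℝ) ^ (2 * n + 2)) := by
    intro d hno q p hq
    by_contra hcon
    rw [not_le, max_lt_iff, hpow1, hpow2] at hcon
    obtain ⟨h1, h2⟩ := hcon
    refine hno q p ⟨hq, ?_, ?_⟩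
    · rw [div_lt_div_iff₀ (by positivity) (by positivity)] at h1
      have : (q : ℝ) * 2 * D < E * D := by linarith
      have := lt_of_mul_lt_mul_right this hD0.le
      linarith
    · rw [lt_div_iff₀ (by positivity)] at h2 ⊢
      calc |(q : ℝ) * (β + (d : ℝ) / (E ^ 2 * (D : ℝ) ^ 2)) - p| * (2 * E * (D : ℝ) ^ 2)
          = E * D * |(q : ℝ) * (β + (d : ℝ) / (E ^ 2 * (D : ℝ) ^ 2)) - p| * (2 * D) := by ring
        _ < 1 := h2
  by_cases hex : ∃ (k d : ℕ) (q p : ℤ), d < D ^ 2 ∧ Fl d q p ∧ q.toNat = k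
  · obtain ⟨d0, q0, p0, hd0, hF0, hk0⟩ := Nat.find_spec hex
    have hmin : ∀ (d : ℕ) (q p : ℤ), d < D ^ 2 → Fl d q p → q0 ≤ q := by
      intro d q p hd hF
      have h1 : Nat.find hex ≤ q.toNat := Nat.find_min' hex ⟨d, q, p, hd, hF, rfl⟩
      rw [← hk0] at h1
      have := hF0.1
      have := hF.1
      omega
    have hq0 : (0 : ℝ) < q0 := by exact_mod_cast hF0.1
    -- bound of the distance to `β`
    have hdist : ∀ (d : ℕ) (q p : ℤ), d < D ^ 2 → Fl d q p →
        |(q : ℝ) * β - p| < 1 / (2 * E * (D : ℝ) ^ 2) + 1 / (2 * E) := by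
      intro d q p hd hF
      obtain ⟨h1, h2, h3⟩ := hF
      have hq : (0 : ℝ) < q := by exact_mod_cast h1
      have hdr : (d : ℝ) ≤ (D : ℝ) ^ 2 := by exact_mod_cast hd.le
      have e1 : (q : ℝ) * β - p = ((q : ℝ) * (β + (d : ℝ) / (E ^ 2 * (D : ℝ) ^ 2)) - p) -
          (q : ℝ) * ((d : ℝ) / (E ^ 2 * (D : ℝ) ^ 2)) := by ring
      have h4 : (d : ℝ) / (E ^ 2 * (D : ℝ) ^ 2) ≤ 1 / E ^ 2 := by
        rw [div_le_div_iff₀ (by positivity) (by positivity)]
        nlinarith [sq_nonneg E]
      have h5 : (q : ℝ) * ((d : ℝ) / (E ^ 2 * (D : ℝ) ^ 2)) ≤ 1 / (2 * E) := by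
        calc (q : ℝ) * ((d : ℝ) / (E ^ 2 * (D : ℝ) ^ 2)) ≤ E / 2 * (1 / E ^ 2) :=
              mul_le_mul h2.le h4 (by positivity) (by positivity)
          _ = 1 / (2 * E) := by field_simp
      have h6 : 0 ≤ (q : ℝ) * ((d : ℝ) / (E ^ 2 * (D : ℝ) ^ 2)) := by positivity
      rw [e1]
      refine lt_of_le_of_lt (abs_sub _ _) ?_
      rw [abs_of_nonneg h6]
      linarith
    -- all failures are proportional
    have hprop : ∀ (d : ℕ) (q p : ℤ), d < D ^ 2 → Fl d q p → q * p0 = q0 * p := by
      intro d q p hd hF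
      have hq : (0 : ℝ) < q := by exact_mod_cast hF.1
      have h1 := hdist d q p hd hF
      have h2 := hdist d0 q0 p0 hd0 hF0
      have h3 : |(q : ℝ) * p0 - (q0 : ℝ) * p| < 1 := by
        have e1 : (q : ℝ) * p0 - (q0 : ℝ) * p =
            (q0 : ℝ) * ((q : ℝ) * β - p) - (q : ℝ) * ((q0 : ℝ) * β - p0) := by ring
        rw [e1]
        refine lt_of_le_of_lt (abs_sub _ _) ?_
        rw [abs_mul, abs_mul, abs_of_pos hq0, abs_of_pos hq]
        set B : ℝ := 1 / (2 * E * (D : ℝ) ^ 2) + 1 / (2 * E) with hB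
        have hB0 : 0 < B := by positivity
        have a1 : (q0 : ℝ) * |(q : ℝ) * β - p| ≤ E / 2 * B :=
          mul_le_mul hF0.2.1.le h1.le (abs_nonneg _) (by positivity)
        have a2 : (q : ℝ) * |(q0 : ℝ) * β - p0| ≤ E / 2 * B :=
          mul_le_mul hF.2.1.le h2.le (abs_nonneg _) (by positivity)
        have a3 : E / 2 * B + E / 2 * B = 1 / 2 * (1 / (D : ℝ) ^ 2) + 1 / 2 := by
          rw [hB]
          field_simp
          norm_num
        have a4 : 1 / (D : ℝ) ^ 2 < 1 := by
          rw [div_lt_one (by positivity)]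
          nlinarith
        linarith
      have h4 : |q * p0 - q0 * p| < 1 := by
        have : ((|q * p0 - q0 * p| : ℤ) : ℝ) < 1 := by
          push_cast
          exact h3
        exact_mod_cast this
      have h5 := Int.abs_lt_one_iff.1 h4
      linarith
    -- a failure at `d` implies the failure of `(q0, p0)` at `d`
    have hfail : ∀ (d : ℕ) (q p : ℤ), d < D ^ 2 → Fl d q p → Fl d q0 p0 := by
      intro d q p hd hF
      have hq : (0 : ℝ) < q := by exact_mod_cast hF.1
      have h1 := hprop d q p hd hF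
      have h2 : (q0 : ℝ) ≤ q := by exact_mod_cast hmin d q p hd hF
      have h1' : (q : ℝ) * p0 = (q0 : ℝ) * p := by exact_mod_cast h1
      refine ⟨hF0.1, hF0.2.1, lt_of_le_of_lt ?_ hF.2.2⟩
      set z : ℝ := β + (d : ℝ) / (E ^ 2 * (D : ℝ) ^ 2) with hz
      have e1 : (q : ℝ) * ((q0 : ℝ) * z - p0) = (q0 : ℝ) * ((q : ℝ) * z - p) := by
        linear_combination -h1'
      have e2 : (q : ℝ) * |(q0 : ℝ) * z - p0| = (q0 : ℝ) * |(q : ℝ) * z - p| := by
        rw [← abs_of_pos hq, ← abs_mul, abs_of_pos hq, e1, abs_mul, abs_of_pos hq0]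
      have h3 : (q : ℝ) * |(q0 : ℝ) * z - p0| ≤ (q : ℝ) * |(q : ℝ) * z - p| := by
        rw [e2]
        exact mul_le_mul_of_nonneg_right h2 (abs_nonneg _)
      exact le_of_mul_le_mul_left h3 hq
    set s : Finset ℕ := (Finset.range (D ^ 2)).filter (fun d => Fl d q0 p0) with hs
    refine ⟨s, ?_, ?_⟩
    · -- the count
      set δ : ℝ := (q0 : ℝ) / (E ^ 2 * (D : ℝ) ^ 2) with hδ
      set γ : ℝ := (q0 : ℝ) * β - p0 with hγ
      have hδ0 : 0 < δ := by positivity
      have hmem : ∀ d ∈ s, d < D ^ 2 ∧ |γ + d * δ| < 1 / (2 * E * (D : ℝ) ^ 2) := by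
        intro d hd
        rw [hs, Finset.mem_filter, Finset.mem_range] at hd
        refine ⟨hd.1, ?_⟩
        have := hd.2.2.2
        have e1 : γ + d * δ = (q0 : ℝ) * (β + (d : ℝ) / (E ^ 2 * (D : ℝ) ^ 2)) - p0 := by
          rw [hγ, hδ]
          ring
        rw [e1]
        exact this
      rcases le_or_gt (1 / (2 * (D : ℝ))) ((q0 : ℝ) / E) with hc | hc
      · rcases s.eq_empty_or_nonempty with h0 | hne
        · rw [h0]
          simp
        · have hsub : s ⊆ Finset.Ico (s.min' hne) (s.min' hne + 2 * D) := by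
            intro d hd
            have hm := hmem _ (s.min'_mem hne)
            have hdd := hmem d hd
            have hle := s.min'_le d hd
            rw [Finset.mem_Ico]
            refine ⟨hle, ?_⟩
            by_contra hcon
            push Not at hcon
            have h1 : ((s.min' hne : ℕ) : ℝ) + 2 * D ≤ d := by exact_mod_cast hcon
            have h2 := abs_lt.1 hm.2
            have h3 := abs_lt.1 hdd.2
            have h4 : (2 * (D : ℝ)) * δ ≤ (d - (s.min' hne : ℕ)) * δ :=
              mul_le_mul_of_nonneg_right (by linarith) hδ0.le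
            have h5 : 1 / (E * (D : ℝ) ^ 2) ≤ 2 * (D : ℝ) * δ := by
              have e1 : 2 * (D : ℝ) * δ = (2 * D * ((q0 : ℝ) / E)) * (1 / (E * (D : ℝ) ^ 2)) := by
                rw [hδ]
                field_simp
              have h6 : 1 ≤ 2 * (D : ℝ) * ((q0 : ℝ) / E) := by
                have := mul_le_mul_of_nonneg_left hc (show (0 : ℝ) ≤ 2 * D by positivity)
                rwa [mul_one_div_cancel (by positivity)] at this
              rw [e1]
              have : 0 ≤ 1 / (E * (D : ℝ) ^ 2) := by positivity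
              nlinarith
            have h7 : 1 / (E * (D : ℝ) ^ 2) = 2 * (1 / (2 * E * (D : ℝ) ^ 2)) := by
              field_simp
            nlinarith
          calc s.card ≤ (Finset.Ico (s.min' hne) (s.min' hne + 2 * D)).card :=
                Finset.card_le_card hsub
            _ = 2 * D := by rw [Nat.card_Ico]; omega
            _ ≤ 2 * D + 4 := by omega
      · have hγ1 : 1 / (2 * (D : ℝ)) ≤ E * |γ| := by
          have h1 := hBA q0 p0 hF0.1
          rcases le_max_iff.1 h1 with h2 | h2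
          · exact absurd h2 (not_le.2 hc)
          · exact h2
        have hsub : s ⊆ Finset.Ico (D ^ 2 - D) (D ^ 2) := by
          intro d hd
          have hdd := hmem d hd
          rw [Finset.mem_Ico]
          refine ⟨?_, hdd.1⟩
          by_contra hcon
          push Not at hcon
          have h1 : d + D ≤ D ^ 2 := by omega
          have h1' : (d : ℝ) + D ≤ (D : ℝ) ^ 2 := by exact_mod_cast h1
          have h2 : |γ| ≤ |γ + d * δ| + d * δ := by
            have h3 : |γ + d * δ - d * δ| ≤ |γ + d * δ| + |d * δ| := abs_sub _ _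
            rw [add_sub_cancel_right, abs_of_nonneg (show 0 ≤ (d : ℝ) * δ by positivity)] at h3
            exact h3
          have h4 : E * |γ| < 1 / (2 * (D : ℝ) ^ 2) + E * (d * δ) := by
            have h5 : E * |γ| < E * (1 / (2 * E * (D : ℝ) ^ 2) + d * δ) :=
              mul_lt_mul_of_pos_left (by linarith) hE0
            have e1 : E * (1 / (2 * E * (D : ℝ) ^ 2) + d * δ) =
                1 / (2 * (D : ℝ) ^ 2) + E * (d * δ) := by
              field_simp
            rwa [e1] at h5
          have h6 : E * (d * δ) ≤ d * (1 / (2 * (D : ℝ))) / (D : ℝ) ^ 2 := by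
            have e1 : E * (d * δ) = d * ((q0 : ℝ) / E) / (D : ℝ) ^ 2 := by
              rw [hδ]
              field_simp
            rw [e1]
            gcongr
          have h7 : d * (1 / (2 * (D : ℝ))) / (D : ℝ) ^ 2 ≤
              ((D : ℝ) ^ 2 - D) * (1 / (2 * (D : ℝ))) / (D : ℝ) ^ 2 := by
            gcongr
            linarith
          have h8 : ((D : ℝ) ^ 2 - D) * (1 / (2 * (D : ℝ))) / (D : ℝ) ^ 2 =
              1 / (2 * (D : ℝ)) - 1 / (2 * (D : ℝ) ^ 2) := by
            field_simp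
          linarith
        calc s.card ≤ (Finset.Ico (D ^ 2 - D) (D ^ 2)).card := Finset.card_le_card hsub
          _ = D ^ 2 - (D ^ 2 - D) := by rw [Nat.card_Ico]
          _ ≤ 2 * D + 4 := by omega
    · intro d hd hds
      apply hBA' d
      intro q p hF
      apply hds
      rw [hs, Finset.mem_filter, Finset.mem_range]
      exact ⟨hd, hfail d q p hd hF⟩
  · refine ⟨∅, by simp, ?_⟩
    intro d hd _
    apply hBA' d
    intro q p hF
    exact hex ⟨q.toNat, d, q, p, hd, hF, rfl⟩

end Pool.Agent.W856.LW
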